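import Mathlib
import Pool.Agent.Lib.MP_52ae34_co.Upper2
import Pool.Agent.Lib.MP_52ae34_co.ExactLower

set_option autoImplicit false

/-! The exact value `S(n) = 2(n-1)`. -/

namespace Pool.Agent.Results.MP_52ae34_co.ExactValue

open Pool.Agent.Lib.MP_52ae34_co
open scoped ENNReal

theorem exists_nat_near {t : ℝ≥0∞} (h1 : 1 ≤ t) (ht : t ≠ ⊤) :
    ∃ T : ℕ, t < T ∧ (T : ℝ≥0∞) ≤ 2 * t := by
  lift t to NNReal using ht
  refine ⟨⌊t⌋₊ + 1, ?_, ?_⟩
  · have := Nat.lt_floor_add_one t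
    exact_mod_cast this
  · have h2 : (1 : NNReal) ≤ t := by exact_mod_cast h1
    have h3 : ((⌊t⌋₊ : ℕ) : NNReal) ≤ t := Nat.floor_le (by positivity)
    have h4 : (((⌊t⌋₊ + 1 : ℕ) : NNReal)) ≤ 2 * t := by
      push_cast
      calc ((⌊t⌋₊ : ℕ) : NNReal) + 1 ≤ t + t := add_le_add h3 h2
        _ = 2 * t := by ring
    exact_mod_cast h4

theorem S_le {α Γ : Type} [Fintype α] [Nonempty α] :
    S α Γ ≤ 2 * ((Fintype.card α - 1 : ℕ) : ℝ≥0∞) := by
  unfold S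
  refine iSup₂_le fun w hw => ?_
  have h1 := one_le_ACE w
  obtain ⟨T, hT1, hT2⟩ := exists_nat_near h1 hw
  refine ENNReal.div_le_of_le_mul ?_
  unfold ACEinj
  refine iSup_le fun h => iSup_le fun x => iSup_le fun hh => ?_
  obtain ⟨hm, hinj, him⟩ := hh
  refine le_trans (ACE_image_le2 hm hinj him hT1) ?_
  rw [Nat.cast_mul]
  calc ((Fintype.card α - 1 : ℕ) : ℝ≥0∞) * (T : ℝ≥0∞)
      ≤ ((Fintype.card α - 1 : ℕ) : ℝ≥0∞) * (2 * ACE w) := mul_le_mul' le_rfl hT2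
    _ = 2 * ((Fintype.card α - 1 : ℕ) : ℝ≥0∞) * ACE w := by ring

/-- For every `n ≥ 2` and every alphabet `Γ` with at least two letters, `S(n) = 2(n-1)`. -/
theorem result (n : ℕ) (hn : 2 ≤ n) (Γ : Type) [Nontrivial Γ] :
    S (Fin n) Γ = 2 * ((n : ℝ≥0∞) - 1) := by
  obtain ⟨k, rfl⟩ : ∃ k, n = k + 1 := ⟨n - 1, by omega⟩
  have e : 2 * (((k + 1 : ℕ) : ℝ≥0∞) - 1) = 2 * (k : ℝ≥0∞) := by
    congr 1
    push_cast
    exact ENNReal.add_sub_cancel_right ENNReal.one_ne_top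
  rw [e]
  apply le_antisymm
  · have := S_le (α := Fin (k + 1)) (Γ := Γ)
    rw [Fintype.card_fin, Nat.add_sub_cancel] at this
    exact this
  · have := Exact.le_S (Γ := Γ) (k := k) (by omega)
    push_cast at this
    exact this

end Pool.Agent.Results.MP_52ae34_co.ExactValue
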